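import Mathlib

/-!
# MP_270b6b, `m = 2 n + 2`: degrees, edge numbers and cores

`dg C S v` is the number of neighbours of `v` in `S`, `e2 C S` is TWICE the number of edges inside `S`,
and a core is a set `X` such that every vertex of `X` has at least two neighbours in `X`.
-/

set_option autoImplicit false

namespace Pool.Agent.Lib.MP_270b6b_co.MB

open Finset

variable {V : Type}

open Classical in
/-- The number of neighbours of `v` in `S`. -/
noncomputable def dg (C : SimpleGraph V) (S : Finset V) (v : V) : ℕ :=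
  (S.filter (fun u => C.Adj v u)).card

/-- Twice the number of edges inside `S`. -/
noncomputable def e2 (C : SimpleGraph V) (S : Finset V) : ℕ := ∑ v ∈ S, dg C S v

/-- `X` is a core if every vertex of `X` has at least two neighbours in `X`. (The empty set is a core.) -/
def Core (C : SimpleGraph V) (X : Finset V) : Prop := ∀ v ∈ X, 2 ≤ dg C X v

open Classical in
/-- The sizes of the nonempty cores inside `H`. -/
noncomputable def cs (C : SimpleGraph V) (H : Finset V) : Finset ℕ :=
  (range (H.card + 1)).filter (fun i => 1 ≤ i ∧ ∃ X ⊆ H, X.card = i ∧ Core C X)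

variable {C : SimpleGraph V} {S T R X Y : Finset V} {u v x y a : V}

theorem dg_mono (h : S ⊆ T) (v : V) : dg C S v ≤ dg C T v := by
  classical
  exact card_le_card (filter_subset_filter _ h)

theorem dg_le_card (S : Finset V) (v : V) : dg C S v ≤ S.card := by
  classical
  exact card_filter_le _ _

@[simp] theorem dg_empty (v : V) : dg C ∅ v = 0 := by
  classical
  simp [dg]

@[simp] theorem e2_empty : e2 C ∅ = 0 := by simp [e2]

theorem one_le_dg_iff : 1 ≤ dg C S v ↔ ∃ u ∈ S, C.Adj v u := by
  classical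
  unfold dg
  rw [Nat.one_le_iff_ne_zero, Finset.card_ne_zero]
  constructor
  · rintro ⟨u, hu⟩
    rw [mem_filter] at hu
    exact ⟨u, hu.1, hu.2⟩
  · rintro ⟨u, hu, h⟩
    exact ⟨u, mem_filter.2 ⟨hu, h⟩⟩

theorem dg_eq_zero_iff : dg C S v = 0 ↔ ∀ u ∈ S, ¬ C.Adj v u := by
  have h := @one_le_dg_iff V C S v
  constructor
  · intro h0 u hu hadj
    have := h.2 ⟨u, hu, hadj⟩
    omega
  · intro h0
    by_contra hne
    obtain ⟨u, hu, hadj⟩ := h.1 (by omega)
    exact h0 u hu hadj

theorem two_le_dg (hx : x ∈ S) (hy : y ∈ S) (hxy : x ≠ y) (h1 : C.Adj v x) (h2 : C.Adj v y) :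
    2 ≤ dg C S v := by
  classical
  unfold dg
  have : ({x, y} : Finset V) ⊆ S.filter (fun u => C.Adj v u) := by
    intro z hz
    rw [mem_insert, mem_singleton] at hz
    rcases hz with rfl | rfl
    · exact mem_filter.2 ⟨hx, h1⟩
    · exact mem_filter.2 ⟨hy, h2⟩
  calc 2 = ({x, y} : Finset V).card := (card_pair hxy).symm
    _ ≤ _ := card_le_card this

theorem two_le_dg_iff : 2 ≤ dg C S v ↔ ∃ x ∈ S, ∃ y ∈ S, x ≠ y ∧ C.Adj v x ∧ C.Adj v y := by
  classical
  constructor
  · intro h
    obtain ⟨x, hx, y, hy, hxy⟩ := one_lt_card.1 (show 1 < (S.filter (fun u => C.Adj v u)).card from h)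
    rw [mem_filter] at hx hy
    exact ⟨x, hx.1, y, hy.1, hxy, hx.2, hy.2⟩
  · rintro ⟨x, hx, y, hy, hxy, h1, h2⟩
    exact two_le_dg hx hy hxy h1 h2

/-- In a set where `v` has at most one neighbour, two neighbours are equal. -/
theorem eq_of_dg_le_one (h : dg C S v ≤ 1) (hx : x ∈ S) (hy : y ∈ S) (h1 : C.Adj v x)
    (h2 : C.Adj v y) : x = y := by
  by_contra hne
  have := two_le_dg hx hy hne h1 h2
  omega

theorem sum_dg_comm (S T : Finset V) : ∑ u ∈ T, dg C S u = ∑ v ∈ S, dg C T v := by
  classical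
  unfold dg
  simp only [card_filter]
  rw [sum_comm]
  refine sum_congr rfl fun v _ => sum_congr rfl fun u _ => ?_
  simp only [SimpleGraph.adj_comm]

variable [DecidableEq V]

theorem dg_union (h : Disjoint S T) (v : V) : dg C (S ∪ T) v = dg C S v + dg C T v := by
  classical
  unfold dg
  rw [filter_union]
  exact card_union_of_disjoint (disjoint_filter_filter h)

theorem dg_union_left_le (S T : Finset V) (v : V) : dg C S v ≤ dg C (S ∪ T) v :=
  dg_mono subset_union_left v

theorem dg_union_right_le (S T : Finset V) (v : V) : dg C T v ≤ dg C (S ∪ T) v :=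
  dg_mono subset_union_right v

theorem dg_insert_adj (ha : a ∉ S) (h : C.Adj v a) : dg C (insert a S) v = dg C S v + 1 := by
  classical
  unfold dg
  rw [filter_insert, if_pos h, card_insert_of_notMem]
  intro h'
  exact ha (mem_filter.1 h').1

theorem dg_insert_not_adj (h : ¬ C.Adj v a) : dg C (insert a S) v = dg C S v := by
  classical
  unfold dg
  rw [filter_insert, if_neg h]

theorem dg_insert_self (a : V) (S : Finset V) : dg C (insert a S) a = dg C S a :=
  dg_insert_not_adj (C.loopless.irrefl a)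

theorem dg_erase_adj (ha : a ∈ S) (h : C.Adj v a) : dg C (S.erase a) v + 1 = dg C S v := by
  rw [← dg_insert_adj (notMem_erase a S) h, insert_erase ha]

theorem dg_erase_not_adj (h : ¬ C.Adj v a) : dg C (S.erase a) v = dg C S v := by
  by_cases ha : a ∈ S
  · rw [← @dg_insert_not_adj V C (S.erase a) v a _ h, insert_erase ha]
  · rw [erase_eq_of_notMem ha]

theorem dg_erase_self (a : V) (S : Finset V) : dg C (S.erase a) a = dg C S a :=
  dg_erase_not_adj (C.loopless.irrefl a)

theorem dg_le_erase (S : Finset V) (a v : V) : dg C S v ≤ dg C (S.erase a) v + 1 := by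
  by_cases ha : a ∈ S
  · by_cases h : C.Adj v a
    · rw [dg_erase_adj ha h]
    · rw [dg_erase_not_adj h]; omega
  · rw [erase_eq_of_notMem ha]; omega

theorem dg_erase_le (S : Finset V) (a v : V) : dg C (S.erase a) v ≤ dg C S v :=
  dg_mono (erase_subset a S) v

/-- Removing vertices lowers the degree by at most their number. -/
theorem dg_le_add (h : X ⊆ S) (v : V) : dg C S v ≤ dg C X v + (S.card - X.card) := by
  have h1 : S = X ∪ (S \ X) := by rw [union_sdiff_of_subset h]
  have h2 : dg C S v = dg C X v + dg C (S \ X) v := by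
    conv_lhs => rw [h1]
    exact dg_union disjoint_sdiff v
  have h3 : dg C (S \ X) v ≤ (S \ X).card := dg_le_card _ _
  rw [card_sdiff_of_subset h] at h3
  omega

theorem dg_lt_card (hv : v ∈ S) : dg C S v + 1 ≤ S.card := by
  have h1 := @dg_le_card V C (S.erase v) v
  rw [dg_erase_self, card_erase_of_mem hv] at h1
  have : 0 < S.card := card_pos.2 ⟨v, hv⟩
  omega

/-- The number of missing edges at a vertex does not grow in a subset. -/
theorem miss_mono (h : X ⊆ S) (hv : v ∈ X) :
    (X.card - 1 - dg C X v) ≤ (S.card - 1 - dg C S v) := by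
  have h1 := dg_le_add (C := C) h v
  have h2 := dg_lt_card (C := C) hv
  have h3 := card_le_card h
  omega

theorem e2_union (h : Disjoint S T) :
    e2 C (S ∪ T) = e2 C S + e2 C T + 2 * ∑ u ∈ T, dg C S u := by
  unfold e2
  rw [sum_union h]
  have h1 : ∑ v ∈ S, dg C (S ∪ T) v = ∑ v ∈ S, dg C S v + ∑ v ∈ S, dg C T v := by
    rw [← sum_add_distrib]
    exact sum_congr rfl fun v _ => dg_union h v
  have h2 : ∑ v ∈ T, dg C (S ∪ T) v = ∑ v ∈ T, dg C S v + ∑ v ∈ T, dg C T v := by
    rw [← sum_add_distrib]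
    exact sum_congr rfl fun v _ => dg_union h v
  rw [h1, h2, sum_dg_comm S T]
  ring

theorem e2_singleton (a : V) : e2 C {a} = 0 := by
  unfold e2
  rw [sum_singleton, dg_eq_zero_iff]
  intro u hu h
  rw [mem_singleton] at hu
  subst hu
  exact C.loopless.irrefl _ h

theorem e2_insert (ha : a ∉ S) : e2 C (insert a S) = e2 C S + 2 * dg C S a := by
  have h : Disjoint S {a} := by simpa using ha
  have h1 : insert a S = S ∪ {a} := by
    ext z; simp [or_comm]
  rw [h1, e2_union h, e2_singleton, sum_singleton]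
  ring

theorem e2_erase (ha : a ∈ S) : e2 C S = e2 C (S.erase a) + 2 * dg C S a := by
  conv_lhs => rw [← insert_erase ha]
  rw [e2_insert (notMem_erase a S), dg_erase_self]

omit [DecidableEq V] in
theorem e2_mono (h : S ⊆ T) : e2 C S ≤ e2 C T := by
  classical
  unfold e2
  calc ∑ v ∈ S, dg C S v ≤ ∑ v ∈ S, dg C T v := sum_le_sum fun v _ => dg_mono h v
    _ ≤ ∑ v ∈ T, dg C T v := sum_le_sum_of_subset h

omit [DecidableEq V] in
theorem e2_even (S : Finset V) : Even (e2 C S) := by
  classical
  induction S using Finset.induction_on with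
  | empty => simp
  | insert a S ha ih =>
    rw [e2_insert ha]
    exact ih.add (even_two_mul _)

omit [DecidableEq V] in
theorem e2_le (S : Finset V) : e2 C S ≤ S.card * (S.card - 1) := by
  classical
  unfold e2
  calc ∑ v ∈ S, dg C S v ≤ ∑ v ∈ S, (S.card - 1) := by
        refine sum_le_sum fun v hv => ?_
        have := dg_lt_card (C := C) hv
        omega
    _ = S.card * (S.card - 1) := by rw [sum_const, smul_eq_mul]

/-- The missing edges at one vertex. -/
theorem miss_one (hv : v ∈ S) :
    e2 C S + 2 * (S.card - 1 - dg C S v) ≤ S.card * (S.card - 1) := by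
  have h1 := e2_erase (C := C) hv
  have h2 := e2_le (C := C) (S.erase v)
  rw [card_erase_of_mem hv] at h2
  have h3 := dg_lt_card (C := C) hv
  obtain ⟨k, hk⟩ : ∃ k, S.card = k + 1 := ⟨S.card - 1, by omega⟩
  rw [hk] at h2 h3 ⊢
  simp only [Nat.add_sub_cancel] at h2 ⊢
  rcases Nat.eq_zero_or_pos k with h0 | h0
  · subst h0; simp at h2 ⊢; omega
  · obtain ⟨j, rfl⟩ : ∃ j, k = j + 1 := ⟨k - 1, by omega⟩
    simp only [Nat.add_sub_cancel] at h2
    have h4 : (j + 1 - dg C S v) + dg C S v = j + 1 := by omega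
    nlinarith

/-- The missing edges at two vertices. -/
theorem miss_two (hu : u ∈ S) (hv : v ∈ S) (huv : u ≠ v) :
    e2 C S + 2 * ((S.card - 1 - dg C S u) + (S.card - 1 - dg C S v)) ≤ S.card * (S.card - 1) + 2 := by
  have h1 := e2_erase (C := C) hu
  have hv' : v ∈ S.erase u := mem_erase.2 ⟨huv.symm, hv⟩
  have h2 := miss_one (C := C) hv'
  rw [card_erase_of_mem hu] at h2
  have h3 := dg_lt_card (C := C) hu
  have h4 := dg_lt_card (C := C) hv
  have h5 : dg C (S.erase u) v ≤ dg C S v := dg_erase_le S u v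
  have h6 : 1 ≤ (S.erase u).card := card_pos.2 ⟨v, hv'⟩
  rw [card_erase_of_mem hu] at h6
  obtain ⟨k, hk⟩ : ∃ k, S.card = k + 2 := ⟨S.card - 2, by omega⟩
  rw [hk] at h2 h3 h4 ⊢
  have h7 : k + 2 - 1 = k + 1 := by omega
  have h8 : k + 1 - 1 = k := by omega
  rw [h7] at h2 ⊢
  rw [h8] at h2
  have h9 : (k + 1 - dg C S u) + dg C S u = k + 1 := by omega
  have h10 : (k + 1 - dg C S v) ≤ (k - dg C (S.erase u) v) + 1 := by omega
  nlinarith

/-- A set with all edges is complete. -/
theorem adj_of_full (h : S.card * (S.card - 1) ≤ e2 C S) (hu : u ∈ S) (hv : v ∈ S) (huv : u ≠ v) :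
    C.Adj u v := by
  by_contra hne
  have h1 := miss_one (C := C) hu
  have h2 : dg C S u + 1 ≤ (S.erase v).card := by
    rw [← dg_erase_not_adj hne]
    exact dg_lt_card (mem_erase.2 ⟨huv, hu⟩)
  rw [card_erase_of_mem hv] at h2
  omega

omit [DecidableEq V] in
/-- In a complete set every vertex has all others as neighbours. -/
theorem dg_of_full (h : ∀ a ∈ S, ∀ b ∈ S, a ≠ b → C.Adj a b) (hX : X ⊆ S) (hv : v ∈ S) :
    X.card ≤ dg C X v + 1 := by
  classical
  by_cases hvX : v ∈ X
  · have : X.erase v ⊆ X.filter (fun u => C.Adj v u) := by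
      intro z hz
      rw [mem_erase] at hz
      exact mem_filter.2 ⟨hz.2, h v hv z (hX hz.2) hz.1.symm⟩
    have h1 := card_le_card this
    rw [card_erase_of_mem hvX] at h1
    unfold dg
    omega
  · have : X ⊆ X.filter (fun u => C.Adj v u) := by
      intro z hz
      refine mem_filter.2 ⟨hz, h v hv z (hX hz) ?_⟩
      rintro rfl
      exact hvX hz
    have h1 := card_le_card this
    unfold dg
    omega

omit [DecidableEq V] in
theorem Core.three_le_card (h : Core C X) (hne : X.Nonempty) : 3 ≤ X.card := by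
  classical
  obtain ⟨v, hv⟩ := hne
  have h1 := h v hv
  have h2 := dg_lt_card (C := C) hv
  omega

theorem Core.union (h : Core C X) (h' : Core C Y) : Core C (X ∪ Y) := by
  intro v hv
  rcases mem_union.1 hv with hv | hv
  · exact (h v hv).trans (dg_union_left_le _ _ _)
  · exact (h' v hv).trans (dg_union_right_le _ _ _)

omit [DecidableEq V] in
theorem mem_cs {H : Finset V} {i : ℕ} : i ∈ cs C H ↔ 1 ≤ i ∧ ∃ X ⊆ H, X.card = i ∧ Core C X := by
  classical
  unfold cs
  rw [mem_filter, mem_range]
  constructor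
  · rintro ⟨_, h⟩
    exact h
  · rintro ⟨h1, X, hX, hc, hcore⟩
    refine ⟨?_, h1, X, hX, hc, hcore⟩
    have := card_le_card hX
    omega

omit [DecidableEq V] in
theorem cs_mono {H K : Finset V} (h : H ⊆ K) : cs C H ⊆ cs C K := by
  intro i hi
  rw [mem_cs] at hi ⊢
  obtain ⟨h1, X, hX, hc, hcore⟩ := hi
  exact ⟨h1, X, hX.trans h, hc, hcore⟩

end Pool.Agent.Lib.MP_270b6b_co.MB
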