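import Pool.Agent.Lib.MP_270b6b_co.MB.Spec

set_option autoImplicit false

namespace Pool.Agent.Lib.MP_270b6b_co.MB

open Finset

theorem specCOR (hLG : SpecLG) : SpecCOR := by
  intro V _ C w R D hS hD i hi hiw
  have hw := hS.hw
  have hR := hS.cR
  have hle : i ≤ R.card := by omega
  rcases hLG V C R ∅ i (empty_subset _) (by simp) hle with ⟨X, -, hXR, hXc, hX⟩ | h
  · exact ⟨X, hXR, hXc, fun v hv => hX v hv (notMem_empty v)⟩
  · exfalso
    have h3 := hS.h3
    have h1 := hS.h1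
    obtain ⟨a, rfl⟩ : ∃ a, i = 4 + a := ⟨i - 4, by omega⟩
    obtain ⟨b, hb⟩ : ∃ b, w = 4 + a + 2 + b := ⟨w - (4 + a + 2), by omega⟩
    rw [hR] at h
    have e1 : w + 1 - (4 + a) = 3 + b := by omega
    have e2' : 4 + a - 2 = 2 + a := by omega
    rw [e1, e2'] at h
    have hsum : ∑ u ∈ D, dg C R u ≤ w := by
      calc ∑ u ∈ D, dg C R u ≤ ∑ u ∈ D, 1 := sum_le_sum fun u hu => h1 u hu
        _ = D.card := by simp
        _ ≤ w := by have := hS.cD; omega
    have hw1 : w * (w - 1) + w = w * w := by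
      obtain ⟨k, rfl⟩ : ∃ k, w = k + 1 := ⟨w - 1, by omega⟩
      simp only [Nat.add_sub_cancel]
      ring
    have hw2 : w * (w + 1) = w * w + w := by ring
    have h5 : (3 + b) * (2 + a) ≥ 6 + 2 * (a + b) := by nlinarith
    generalize (3 + b) * (2 + a) = t at *
    omega

end Pool.Agent.Lib.MP_270b6b_co.MB
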