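import Pool.Agent.Lib.MP_270b6b_co.MB.Spec

/-!
# CPL: the theorem for the complement graph
-/

set_option autoImplicit false

namespace Pool.Agent.Lib.MP_270b6b_co.MB

open Finset

theorem specCPL (hEXT : SpecEXT) (hMAKE : SpecMAKE) (hFIN : SpecFIN) : SpecCPL := by
  intro V _ _ C w hw hV he
  by_cases h : ∃ P : Finset V, P.card = w + 1 ∧ Core C P
  · exact Or.inl h
  right
  push Not at h
  obtain ⟨R, D, hRD, hS⟩ := hEXT V C w hw hV he h
  have hB : Bal C w R D := by
    rcases hMAKE V C w R D hS with hB | ⟨z0, D', h2⟩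
    · exact hB
    · exact hFIN V C w R D z0 D' h2
  obtain ⟨A, B, h1, h2, h3, h4, h5, h6⟩ := hB
  exact ⟨A, B, h1.trans hRD, h2, h3, h4, h5, h6⟩

end Pool.Agent.Lib.MP_270b6b_co.MB
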