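import Pool.Agent.Lib.MP_270b6b_co.MB.Spec

/-!
# MP_270b6b, `m = 2 n + 2`: module ED

If all nonempty cores in `D` have size at least `|D| - 1`, then `D` has at most `|D|` edges.
-/

set_option autoImplicit false

namespace Pool.Agent.Lib.MP_270b6b_co.MB

open Finset

namespace EDM

variable {V : Type} [DecidableEq V] {C : SimpleGraph V} {w : ℕ} {D : Finset V}

omit [DecidableEq V] in
/-- At most two sizes of cores. -/
theorem card_cs_le (hw : 14 ≤ w) (hD : D.card = w)
    (hcore : ∀ X ⊆ D, X.Nonempty → Core C X → w ≤ X.card + 1) : (cs C D).card ≤ 2 := by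
  have hsub : cs C D ⊆ ({w - 1, w} : Finset ℕ) := by
    intro i hi
    rw [mem_cs] at hi
    obtain ⟨h1, X, hX, hc, hcX⟩ := hi
    have hne : X.Nonempty := card_pos.1 (by omega)
    have h2 := hcore X hX hne hcX
    have h3 := card_le_card hX
    rw [mem_insert, mem_singleton]
    omega
  calc (cs C D).card ≤ ({w - 1, w} : Finset ℕ).card := card_le_card hsub
    _ ≤ 2 := card_le_two

/-- The sets `D - v` satisfy the hypothesis of EP. -/
theorem ep_erase (hEP : SpecEP) (hw : 14 ≤ w) (hD : D.card = w)
    (hcore : ∀ X ⊆ D, X.Nonempty → Core C X → w ≤ X.card + 1) {v : V} (hv : v ∈ D) :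
    e2 C (D.erase v) + 2 ≤ 2 * w ∧ (2 * w ≤ e2 C (D.erase v) + 3 → Core C (D.erase v)) := by
  have hc : (D.erase v).card + 1 = w := by
    rw [card_erase_of_mem hv, hD]
    omega
  have hne : (D.erase v).Nonempty := card_pos.1 (by omega)
  have h := hEP V C (D.erase v) hne (by
    intro X hX hXne hXc
    have h1 := hcore X (hX.trans (erase_subset v D)) hXne hXc
    exact eq_of_subset_of_card_le hX (by omega))
  obtain ⟨h1, h2⟩ := h
  refine ⟨by omega, fun h3 => h2 (by omega)⟩

end EDM

open EDM in
theorem specED (hLM : SpecLM) (hEP : SpecEP) : SpecED := by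
  intro V _ C w D hw hD hcore
  have hDne : D.Nonempty := card_pos.1 (by omega)
  -- the bound from LM
  have hub : e2 C D ≤ 2 * w + 4 := by
    have h1 := hLM V C D hDne
    have h2 := card_cs_le hw hD hcore
    rw [hD] at h1
    have h3 : (cs C D).card * ((cs C D).card + 1) ≤ 2 * 3 := Nat.mul_le_mul h2 (by omega)
    omega
  by_contra hcon
  have hlb : 2 * w + 2 ≤ e2 C D := by
    obtain ⟨k, hk⟩ := e2_even (C := C) D
    omega
  -- all degrees are at least two
  have hdeg : ∀ v ∈ D, 2 ≤ dg C D v := by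
    intro v hv
    have h1 := (ep_erase hEP hw hD hcore hv).1
    have h2 := e2_erase (C := C) hv
    omega
  -- some degree is two
  obtain ⟨v, hv, hv2⟩ : ∃ v ∈ D, dg C D v = 2 := by
    by_contra hno
    have hno' : ∀ v ∈ D, 3 ≤ dg C D v := by
      intro v hv
      have h1 := hdeg v hv
      by_contra h3
      exact hno ⟨v, hv, by omega⟩
    have h1 : D.card • 3 ≤ ∑ v ∈ D, dg C D v := card_nsmul_le_sum D _ 3 hno'
    rw [hD, smul_eq_mul] at h1
    have h2 : e2 C D = ∑ v ∈ D, dg C D v := rfl
    omega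
  have heq : e2 C D = 2 * w + 2 := by
    have h1 := (ep_erase hEP hw hD hcore hv).1
    have h2 := e2_erase (C := C) hv
    omega
  -- the neighbours of a vertex of degree two have degree at least three
  have hnb : ∀ u ∈ D, dg C D u = 2 → ∀ y ∈ D, C.Adj u y → 3 ≤ dg C D y := by
    intro u hu hu2 y hy huy
    have h2 := e2_erase (C := C) hu
    have hc := (ep_erase hEP hw hD hcore hu).2 (by omega)
    have hy' : y ∈ D.erase u := mem_erase.2 ⟨huy.ne', hy⟩
    have h3 := hc y hy'
    have h4 := dg_erase_adj (C := C) hu huy.symm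
    omega
  obtain ⟨p, hp, q, hq, hpq, hvp, hvq⟩ := two_le_dg_iff.1 (hdeg v hv)
  have hp3 := hnb v hv hv2 p hp hvp
  have hq3 := hnb v hv hv2 q hq hvq
  -- the sum of the degrees
  have hq' : q ∈ D.erase p := mem_erase.2 ⟨hpq.symm, hq⟩
  have hsum : dg C D p + (dg C D q + ∑ u ∈ (D.erase p).erase q, dg C D u) = 2 * w + 2 := by
    rw [add_sum_erase (D.erase p) (fun u => dg C D u) hq',
      add_sum_erase D (fun u => dg C D u) hp]
    exact heq
  have hcE : ((D.erase p).erase q).card + 2 = w := by
    rw [card_erase_of_mem hq', card_erase_of_mem hp, hD]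
    omega
  have hE : ∀ u ∈ (D.erase p).erase q, dg C D u = 2 := by
    intro u hu
    have hu' := hu
    rw [mem_erase, mem_erase] at hu'
    obtain ⟨huq, hup, huD⟩ := hu'
    have h1 : dg C D u + ∑ x ∈ ((D.erase p).erase q).erase u, dg C D x
        = ∑ x ∈ (D.erase p).erase q, dg C D x :=
      add_sum_erase ((D.erase p).erase q) (fun x => dg C D x) hu
    have h2 : (((D.erase p).erase q).erase u).card • 2
        ≤ ∑ x ∈ ((D.erase p).erase q).erase u, dg C D x := by
      refine card_nsmul_le_sum _ _ 2 ?_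
      intro x hx
      exact hdeg x (mem_of_mem_erase (mem_of_mem_erase (mem_of_mem_erase hx)))
    rw [card_erase_of_mem hu, smul_eq_mul] at h2
    have h3 := hdeg u huD
    omega
  have hp3' : dg C D p = 3 := by
    have h2 : ((D.erase p).erase q).card • 2 ≤ ∑ x ∈ (D.erase p).erase q, dg C D x := by
      refine card_nsmul_le_sum _ _ 2 ?_
      intro x hx
      exact hdeg x (mem_of_mem_erase (mem_of_mem_erase hx))
    rw [smul_eq_mul] at h2
    omega
  -- all other vertices are adjacent to `p`
  have hadj : ∀ u ∈ (D.erase p).erase q, C.Adj p u := by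
    intro u hu
    have hu2 := hE u hu
    have hu' := hu
    rw [mem_erase, mem_erase] at hu'
    obtain ⟨huq, hup, huD⟩ := hu'
    have hpq_of : ∀ y ∈ D, C.Adj u y → y = p ∨ y = q := by
      intro y hy huy
      by_contra hne
      rw [not_or] at hne
      have h1 := hnb u huD hu2 y hy huy
      have h2 := hE y (mem_erase.2 ⟨hne.2, mem_erase.2 ⟨hne.1, hy⟩⟩)
      omega
    obtain ⟨a, ha, b, hb, hab, hua, hub'⟩ := two_le_dg_iff.1 (hdeg u huD)
    rcases hpq_of a ha hua with h1 | h1
    · exact h1 ▸ hua.symm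
    · rcases hpq_of b hb hub' with h2 | h2
      · exact h2 ▸ hub'.symm
      · exact absurd (h1.trans h2.symm) hab
  have hbig : ((D.erase p).erase q).card ≤ dg C D p := by
    classical
    unfold dg
    refine card_le_card ?_
    intro u hu
    exact mem_filter.2 ⟨mem_of_mem_erase (mem_of_mem_erase hu), hadj u hu⟩
  omega

end Pool.Agent.Lib.MP_270b6b_co.MB
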