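import Pool.Agent.Lib.MP_270b6b_co.MB.Spec

set_option autoImplicit false

namespace Pool.Agent.Lib.MP_270b6b_co.MB

open Finset

theorem specEP (hLM : SpecLM) : SpecEP := by
  classical
  intro V _ C H hH hcore
  have hLM' := hLM V C H hH
  have hsub : cs C H ⊆ {H.card} := by
    intro i hi
    rw [mem_cs] at hi
    obtain ⟨h1, X, hX, hc, hXc⟩ := hi
    have hne : X.Nonempty := by
      rw [← card_pos, hc]
      omega
    rw [mem_singleton, ← hc, hcore X hX hne hXc]
  have hc := card_le_card hsub
  rw [card_singleton] at hc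
  refine ⟨?_, fun h => ?_⟩
  · have : (cs C H).card * ((cs C H).card + 1) ≤ 1 * (1 + 1) :=
      Nat.mul_le_mul hc (by omega)
    omega
  · by_contra hnc
    have hcs : cs C H = ∅ := by
      rw [eq_empty_iff_forall_notMem]
      intro i hi
      rw [mem_cs] at hi
      obtain ⟨h1, X, hX, hXc, hXcore⟩ := hi
      have hne : X.Nonempty := by
        rw [← card_pos, hXc]
        omega
      exact hnc (hcore X hX hne hXcore ▸ hXcore)
    rw [hcs, card_empty] at hLM'
    omega

end Pool.Agent.Lib.MP_270b6b_co.MB
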