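import Pool.Agent.Lib.MP_270b6b_co.MB.Spec

/-!
# Module EXT
-/

set_option autoImplicit false

namespace Pool.Agent.Lib.MP_270b6b_co.MB

open Finset

theorem specEXT : SpecEXT := by
  intro V _ _ C w hw hV he hno
  have hne : (powersetCard (w + 1) (univ : Finset V)).Nonempty := by
    rw [powersetCard_nonempty, card_univ, hV]
    omega
  obtain ⟨P, hP, hmax⟩ := exists_max_image _ (fun P => e2 C P) hne
  rw [mem_powersetCard] at hP
  have hPc := hP.2
  have hnc := hno P hPc
  unfold Core at hnc
  push Not at hnc
  obtain ⟨v, hvP, hv⟩ := hnc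
  set R : Finset V := P.erase v with hRdef
  have hR : R.card = w := by rw [hRdef, card_erase_of_mem hvP, hPc]; omega
  have hD : (univ \ R : Finset V).card = w := by
    rw [card_sdiff_of_subset (subset_univ R), card_univ, hV, hR]
    omega
  have heP : e2 C P = e2 C R + 2 * dg C P v := e2_erase hvP
  have hvR : dg C R v = dg C P v := dg_erase_self v P
  have hle : ∀ u ∈ (univ \ R : Finset V), dg C R u ≤ dg C R v := by
    intro u hu
    have hu' : u ∉ R := (mem_sdiff.1 hu).2
    have h1 := hmax (insert u R) (mem_powersetCard.2 ⟨subset_univ _, by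
      rw [card_insert_of_notMem hu', hR]⟩)
    rw [e2_insert hu'] at h1
    omega
  refine ⟨R, univ \ R, union_sdiff_of_subset (subset_univ _), ⟨hw, hR, hD, disjoint_sdiff,
    fun u hu => (hle u hu).trans (by omega), ?_, ?_, hno⟩⟩
  · obtain ⟨z, hz⟩ : R.Nonempty := card_pos.1 (by omega)
    have hzD : z ∉ (univ \ R : Finset V) := fun h => (mem_sdiff.1 h).2 hz
    have h1 := hmax (insert z (univ \ R)) (mem_powersetCard.2 ⟨subset_univ _, by
      rw [card_insert_of_notMem hzD, hD]⟩)
    have h2 := e2_mono (C := C) (subset_insert z (univ \ R))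
    omega
  · have h := e2_union (C := C) (disjoint_sdiff : Disjoint R (univ \ R))
    rw [union_sdiff_of_subset (subset_univ _), he] at h
    omega

end Pool.Agent.Lib.MP_270b6b_co.MB
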