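import Pool.Agent.Lib.MP_270b6b_co.MB.Spec

/-!
# FB: the explicit partitions
-/

set_option autoImplicit false

namespace Pool.Agent.Lib.MP_270b6b_co.MB

open Finset

theorem specFB : SpecFB := by
  intro V _ C w R D z0 zs u1 x hw hR hD hdis hfull hz0 hzs hz0s hu1 hx hu1x hD1 hD2
  have hRD : ∀ a, a ∈ R → a ∈ D → False := fun a h1 h2 => disjoint_left.1 hdis h1 h2
  have hz0R : z0 ∉ R := fun h => hRD _ h hz0
  have hxD : x ∉ D := fun h => hRD _ hx h
  have hu1' := mem_erase.1 hu1
  have hu1R : u1 ∉ R := fun h => hRD _ h hu1'.2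
  by_cases hzx : zs = x
  · subst hzx
    -- choose `b1, b2`
    have hc1 : 1 < (R.erase zs).card := by
      rw [card_erase_of_mem hzs, hR]
      omega
    obtain ⟨b1, hb1, b2, hb2, hb12⟩ := one_lt_card.1 hc1
    rw [mem_erase] at hb1 hb2
    set R' := ((R.erase zs).erase b1).erase b2 with hR'
    have hm1 : b1 ∈ R.erase zs := mem_erase.2 hb1
    have hm2 : b2 ∈ (R.erase zs).erase b1 := mem_erase.2 ⟨hb12.symm, mem_erase.2 hb2⟩
    have hR'c : R'.card = w - 3 := by
      rw [hR', card_erase_of_mem hm2, card_erase_of_mem hm1, card_erase_of_mem hzs, hR]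
      omega
    have hR'm : ∀ a, a ∈ R' ↔ a ≠ b2 ∧ a ≠ b1 ∧ a ≠ zs ∧ a ∈ R := by
      intro a
      simp only [hR', mem_erase, ne_eq]
    have hDm : ∀ a, a ∈ (D.erase z0).erase u1 ↔ a ≠ u1 ∧ a ≠ z0 ∧ a ∈ D := by
      intro a
      simp only [mem_erase, ne_eq]
    have e1 : u1 ∉ R' := fun h => hu1R ((hR'm _).1 h).2.2.2
    have e2' : zs ∉ insert u1 R' := by
      rw [mem_insert, not_or]
      refine ⟨?_, fun h => ((hR'm _).1 h).2.2.1 rfl⟩
      rintro rfl
      exact hu1R hzs
    have e3 : z0 ∉ insert zs (insert u1 R') := by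
      rw [mem_insert, mem_insert, not_or, not_or]
      refine ⟨?_, ?_, fun h => hz0R ((hR'm _).1 h).2.2.2⟩
      · rintro rfl
        exact hz0R hzs
      · rintro rfl
        exact hu1'.1 rfl
    have e4 : b2 ∉ (D.erase z0).erase u1 := fun h => hRD _ hb2.2 ((hDm _).1 h).2.2
    have e5 : b1 ∉ insert b2 ((D.erase z0).erase u1) := by
      rw [mem_insert, not_or]
      exact ⟨hb12, fun h => hRD _ hb1.2 ((hDm _).1 h).2.2⟩
    refine ⟨insert z0 (insert zs (insert u1 R')), insert b1 (insert b2 ((D.erase z0).erase u1)),
      ?_, ?_, ?_, ?_, ?_, ?_⟩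
    · apply subset_antisymm
      · intro a ha
        rw [mem_union, mem_insert, mem_insert, mem_insert, mem_insert, mem_insert] at ha
        rw [mem_union]
        rcases ha with (rfl | rfl | rfl | h) | (rfl | rfl | h)
        · exact Or.inr hz0
        · exact Or.inl hzs
        · exact Or.inr hu1'.2
        · exact Or.inl ((hR'm _).1 h).2.2.2
        · exact Or.inl hb1.2
        · exact Or.inl hb2.2
        · exact Or.inr ((hDm _).1 h).2.2
      · intro a ha
        rw [mem_union, mem_insert, mem_insert, mem_insert, mem_insert, mem_insert, hR'm, hDm]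
        rw [mem_union] at ha
        tauto
    · rw [disjoint_left]
      intro a ha hb
      rw [mem_insert, mem_insert, mem_insert, hR'm] at ha
      rw [mem_insert, mem_insert, hDm] at hb
      rcases hb with rfl | rfl | ⟨h1, h2, h3⟩
      · rcases ha with rfl | rfl | rfl | h
        · exact hz0R hb1.2
        · exact hb1.1 rfl
        · exact hu1R hb1.2
        · exact h.2.1 rfl
      · rcases ha with rfl | rfl | rfl | h
        · exact hz0R hb2.2
        · exact hb2.1 rfl
        · exact hu1R hb2.2
        · exact h.1 rfl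
      · rcases ha with rfl | rfl | rfl | h
        · exact h2 rfl
        · exact hxD h3
        · exact h1 rfl
        · exact hRD _ h.2.2.2 h3
    · rw [card_insert_of_notMem e3, card_insert_of_notMem e2', card_insert_of_notMem e1, hR'c]
      omega
    · rw [card_insert_of_notMem e5, card_insert_of_notMem e4, card_erase_of_mem hu1,
        card_erase_of_mem hz0, hD]
      omega
    · have hzm : zs ∈ insert z0 (insert zs (insert u1 R')) := by
        rw [mem_insert, mem_insert]
        exact Or.inr (Or.inl rfl)
      intro v hv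
      rw [mem_insert, mem_insert, mem_insert, hR'm] at hv
      rw [one_le_dg_iff]
      rcases hv with rfl | rfl | rfl | h
      · exact ⟨zs, hzm, hz0s⟩
      · exact ⟨z0, mem_insert_self _ _, hz0s.symm⟩
      · exact ⟨zs, hzm, hu1x⟩
      · exact ⟨zs, hzm, hfull v h.2.2.2 zs hzs h.2.2.1⟩
    · intro v hv
      rw [mem_insert, mem_insert] at hv
      rcases hv with rfl | rfl | h
      · rw [one_le_dg_iff]
        exact ⟨b2, by simp, hfull _ hb1.2 _ hb2.2 hb12⟩
      · rw [one_le_dg_iff]
        exact ⟨b1, by simp, hfull _ hb2.2 _ hb1.2 hb12.symm⟩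
      · exact (hD2 v h).trans
          (dg_mono ((subset_insert _ _).trans (subset_insert _ _)) v)
  · have e1 : z0 ∉ R.erase x := fun h => hz0R (mem_erase.1 h).2
    have e2' : x ∉ D.erase z0 := fun h => hxD (mem_erase.1 h).2
    refine ⟨insert z0 (R.erase x), insert x (D.erase z0), ?_, ?_, ?_, ?_, ?_, ?_⟩
    · apply subset_antisymm
      · intro a ha
        rw [mem_union, mem_insert, mem_insert, mem_erase, mem_erase] at ha
        rw [mem_union]
        rcases ha with (rfl | h) | (rfl | h)
        · exact Or.inr hz0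
        · exact Or.inl h.2
        · exact Or.inl hx
        · exact Or.inr h.2
      · intro a ha
        rw [mem_union, mem_insert, mem_insert, mem_erase, mem_erase]
        rw [mem_union] at ha
        tauto
    · rw [disjoint_left]
      intro a ha hb
      rw [mem_insert, mem_erase] at ha hb
      rcases ha with rfl | h
      · rcases hb with rfl | h'
        · exact hz0R hx
        · exact h'.1 rfl
      · rcases hb with rfl | h'
        · exact h.1 rfl
        · exact hRD _ h.2 h'.2
    · rw [card_insert_of_notMem e1, card_erase_of_mem hx, hR]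
      omega
    · rw [card_insert_of_notMem e2', card_erase_of_mem hz0, hD]
      omega
    · intro v hv
      rw [mem_insert] at hv
      rw [one_le_dg_iff]
      rcases hv with rfl | h
      · exact ⟨zs, mem_insert_of_mem (mem_erase.2 ⟨hzx, hzs⟩), hz0s⟩
      · have hc : 1 < (R.erase x).card := by
          rw [card_erase_of_mem hx, hR]
          omega
        obtain ⟨u, hu, huv⟩ := exists_mem_ne hc v
        exact ⟨u, mem_insert_of_mem hu, hfull v (mem_erase.1 h).2 u (mem_erase.1 hu).2 huv.symm⟩
    · intro v hv
      rw [mem_insert] at hv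
      rcases hv with rfl | h
      · rw [one_le_dg_iff]
        exact ⟨u1, mem_insert_of_mem hu1, hu1x.symm⟩
      · exact (hD1 v h).trans (dg_mono (subset_insert _ _) v)

end Pool.Agent.Lib.MP_270b6b_co.MB
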