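import Pool.Agent.Lib.MP_270b6b_co.MB.Spec

/-!
# FIN: the second situation gives the balanced partition (author: helper47)
-/

set_option autoImplicit false

namespace Pool.Agent.Lib.MP_270b6b_co.MB

open Finset

theorem specFIN (hMGA : SpecMGA) (hMGB : SpecMGB) (hBND : SpecBND) (hTWO : SpecTWO)
    (hTHR : SpecTHR) (hFOU : SpecFOU) (hFB : SpecFB) : SpecFIN := by
  intro V _ C w R D z0 D' h
  have hs := h.sit
  have hw := hs.hw
  have hD'D : D' ⊆ D := by rw [h.hD']; exact erase_subset _ _
  have hdis' : Disjoint R D' := hs.dis.mono_right hD'D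
  have hcomp : w * (w - 1) ≤ e2 C R → ∀ a ∈ R, ∀ b ∈ R, a ≠ b → C.Adj a b :=
    fun he a ha b hb hab => adj_of_full (by rw [hs.cR]; exact he) ha hb hab
  obtain ⟨U, hU, hmin, hUe⟩ := hMGA V C w R D z0 D' h
  rcases hMGB V C w R D z0 D' U h hU hUe with ⟨hUD, hcore, hR, hz, u1, hu1, hu1d⟩ |
    ⟨heU, hsum, u1, hu1, u2, hu2, h12, hd1, hd2, hg1, hg2, hrest⟩
  · obtain ⟨x, hx, hux⟩ := one_le_dg_iff.1 (show 1 ≤ dg C R u1 by omega)
    obtain ⟨zs, hzs, hzz⟩ := one_le_dg_iff.1 (show 1 ≤ dg C R z0 by omega)
    refine hFB V C w R D z0 zs u1 x hw hs.cR hs.cD hs.dis (hcomp hR.ge) h.hz0 hzs hzz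
      (by rw [← h.hD']; exact hu1) hx hux ?_ ?_
    · rw [← h.hD']
      intro v hv
      have := hcore v hv
      omega
    · rw [← h.hD']
      intro v hv
      have h1 := hcore v (mem_of_mem_erase hv)
      have h2 := dg_le_erase (C := C) D' u1 v
      omega
  · obtain ⟨x, hx, hux⟩ := one_le_dg_iff.1 (show 1 ≤ dg C R u1 by omega)
    obtain ⟨x', hx', hux'⟩ := one_le_dg_iff.1 (show 1 ≤ dg C R u2 by omega)
    obtain ⟨hb1, hb2⟩ := hBND V C w R D z0 D' U u1 h hU hmin hsum hu1 hd1 hg1
    have hpair : ({u1, u2} : Finset V) ⊆ U := by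
      intro z hz
      rw [mem_insert, mem_singleton] at hz
      rcases hz with rfl | rfl
      · exact hu1
      · exact hu2
    have hpc : ({u1, u2} : Finset V).card = 2 := card_pair h12
    have hU2 : 2 ≤ U.card := by rw [← hpc]; exact card_le_card hpair
    have hUle : U.card ≤ D'.card := card_le_card hU.sub
    have hc := h.cD'
    have hdisU : Disjoint R U := hdis'.mono_right hU.sub
    have hUR : ∀ u ∈ U, u ∉ R := fun u hu hR => disjoint_left.1 hdisU hR hu
    rcases Nat.lt_or_ge 2 U.card with h3 | h3
    · rcases Nat.lt_or_ge (U.card + 1) w with h4 | h4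
      · obtain ⟨P, hP, hPc⟩ := hTHR V C w R U u1 u2 x x' hw hs.cR hdisU h3 (by omega)
          (hb2 h3) hu1 hu2 h12 hg1.ge hg2.ge (fun u hu h5 h6 => (hrest u hu h5 h6).2.ge)
          hx hx' hux hux'
        exact absurd hPc (hs.noA P hP)
      · have hUD' : U = D' := eq_of_subset_of_card_le hU.sub (by omega)
        have hUc : U.card + 1 = w := by omega
        have hRfull : w * (w - 1) ≤ e2 C R := by
          have := hb2 h3
          omega
        have hRle : e2 C R ≤ w * (w - 1) := by
          have := e2_le (C := C) R
          rwa [hs.cR] at this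
        have hz1 : dg C R z0 = 1 := by
          have h5 := h.cnt
          rw [← hUD', hsum] at h5
          have h6 : w * (w + 1) = w * (w - 1) + 2 * w := by
            obtain ⟨k, rfl⟩ : ∃ k, w = k + 1 := ⟨w - 1, by omega⟩
            rw [Nat.add_sub_cancel]
            ring
          rw [h6] at h5
          omega
        have hcR := hcomp hRfull
        by_cases hxx : x = x'
        · obtain ⟨zs, hzs, hzz⟩ := one_le_dg_iff.1 (show 1 ≤ dg C R z0 by omega)
          have hdU : ∀ v ∈ U, 1 ≤ dg C U v := by
            intro v hv
            by_cases h5 : v = u1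
            · rw [h5]; omega
            · by_cases h6 : v = u2
              · rw [h6]; omega
              · have := (hrest v hv h5 h6).2
                omega
          refine hFB V C w R D z0 zs u1 x hw hs.cR hs.cD hs.dis hcR h.hz0 hzs hzz
            (by rw [← h.hD', ← hUD']; exact hu1) hx hux ?_ ?_
          · rw [← h.hD', ← hUD']
            exact hdU
          · rw [← h.hD', ← hUD']
            intro v hv
            have hvU := mem_of_mem_erase hv
            have hv1 : v ≠ u1 := ne_of_mem_erase hv
            by_cases hadj : C.Adj v u1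
            · by_cases h6 : v = u2
              · exfalso
                rw [h6] at hadj
                have hgood : GoodU C R D' {u1, u2} := by
                  refine ⟨⟨u1, by simp⟩, hpair.trans hU.sub, ?_⟩
                  intro z hz
                  rw [mem_insert, mem_singleton] at hz
                  rcases hz with rfl | rfl
                  · have : 1 ≤ dg C {z, u2} z :=
                      one_le_dg_iff.2 ⟨u2, by simp, hadj.symm⟩
                    omega
                  · have : 1 ≤ dg C {u1, z} z := one_le_dg_iff.2 ⟨u1, by simp, hadj⟩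
                    omega
                have := hmin _ hgood
                rw [hpc] at this
                omega
              · have h7 := (hrest v hvU hv1 h6).2
                have h8 := dg_le_erase (C := C) U u1 v
                omega
            · rw [dg_erase_not_adj hadj]
              exact hdU v hvU
        · obtain ⟨P, hP, hPc⟩ := hFOU V C R U u1 u2 x x' hdisU hu1 hu2 h12 hg1.ge hg2.ge
            (fun u hu h5 h6 => (hrest u hu h5 h6).2.ge) hx hx' hxx (hcR x hx x' hx' hxx) hux hux'
          exact absurd hPc (hs.noA P (by omega))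
    · have hUeq : ({u1, u2} : Finset V) = U := eq_of_subset_of_card_le hpair (by omega)
      have hadj : C.Adj u1 u2 := by
        obtain ⟨u, hu, huu⟩ := one_le_dg_iff.1 (show 1 ≤ dg C U u1 by omega)
        rw [← hUeq, mem_insert, mem_singleton] at hu
        rcases hu with rfl | rfl
        · exact absurd huu (C.loopless.irrefl _)
        · exact huu
      have hUc : U.card = 2 := by omega
      rw [hUc] at hb1
      obtain ⟨P, hP, hPc⟩ := hTWO V C w R u1 u2 x x' hw hs.cR hb1 (hUR u1 hu1) (hUR u2 hu2) h12
        hadj hx hx' hux hux'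
      exact absurd hPc (hs.noA P hP)

end Pool.Agent.Lib.MP_270b6b_co.MB
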