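import Pool.Agent.Lib.MP_270b6b_co.MB.Spec

/-! MP_270b6b_co, module FOU of the hive MB (helper61). -/

set_option autoImplicit false

namespace Pool.Agent.Lib.MP_270b6b_co.MB

open Finset

/-- **FOU**. -/
theorem specFOU : SpecFOU := by
  intro V _ C R U u1 u2 x x' hRU hu1 hu2 hne h1 h2 hU hx hx' hxx hadj hux hux'
  have hxU : x ∉ U := fun h => (disjoint_left.1 hRU hx) h
  have hxU' : x' ∉ U := fun h => (disjoint_left.1 hRU hx') h
  have hxi : x ∉ insert x' U := by
    rw [mem_insert, not_or]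
    exact ⟨hxx, hxU⟩
  refine ⟨insert x (insert x' U), ?_, ?_⟩
  · rw [card_insert_of_notMem hxi, card_insert_of_notMem hxU']
  · have hUP : U ⊆ insert x (insert x' U) :=
      (subset_insert x' U).trans (subset_insert x _)
    have hxP : x ∈ insert x (insert x' U) := mem_insert_self _ _
    have hxP' : x' ∈ insert x (insert x' U) := mem_insert_of_mem (mem_insert_self _ _)
    intro v hv
    rcases mem_insert.1 hv with rfl | hv
    · exact two_le_dg (hUP hu1) hxP' (fun h => hxU' (h ▸ hu1)) hux.symm hadj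
    rcases mem_insert.1 hv with rfl | hv
    · exact two_le_dg (hUP hu2) hxP (fun h => hxU (h ▸ hu2)) hux'.symm hadj.symm
    by_cases e1 : v = u1
    · rw [e1]
      obtain ⟨y, hy, hyadj⟩ := one_le_dg_iff.1 h1
      exact two_le_dg (hUP hy) hxP (fun h => hxU (h ▸ hy)) hyadj hux
    by_cases e2 : v = u2
    · rw [e2]
      obtain ⟨y, hy, hyadj⟩ := one_le_dg_iff.1 h2
      exact two_le_dg (hUP hy) hxP' (fun h => hxU' (h ▸ hy)) hyadj hux'
    · exact (hU v hv e1 e2).trans (dg_mono hUP v)

end Pool.Agent.Lib.MP_270b6b_co.MB
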