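import Pool.Agent.Lib.MP_270b6b_co.MB.Spec

/-!
# ISR: `R` has no isolated vertex if `e(D) ≤ w`
-/

set_option autoImplicit false

namespace Pool.Agent.Lib.MP_270b6b_co.MB

open Finset

theorem specISR : SpecISR := by
  intro V _ C w R D hS heD z hz
  by_contra hcon
  have hz0 : dg C R z = 0 := by omega
  obtain ⟨k, rfl⟩ : ∃ k, w = k + 2 := ⟨w - 2, by have := hS.hw; omega⟩
  have hw := hS.hw
  have hzD : z ∉ D := fun h => Finset.disjoint_left.1 hS.dis hz h
  set R' : Finset V := R.erase z with hR'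
  have hR'D : ∀ u ∈ D, u ∉ R' := fun u hu h =>
    Finset.disjoint_left.1 hS.dis (mem_of_mem_erase h) hu
  have cR' : R'.card = k + 1 := by
    rw [hR', card_erase_of_mem hz, hS.cR]
    omega
  have eR : e2 C R = e2 C R' := by
    have := e2_erase (C := C) hz
    rw [hz0] at this
    omega
  have eR' : e2 C R' ≤ (k + 1) * k := by
    have := e2_le (C := C) R'
    rwa [cR', Nat.add_sub_cancel] at this
  have hsum : ∑ u ∈ D, dg C R u ≤ k + 2 := by
    have := sum_le_card_nsmul D (fun u => dg C R u) 1 (fun u hu => hS.h1 u hu)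
    rw [smul_eq_mul, mul_one, hS.cD] at this
    exact this
  have h3 := hS.h3
  have hring : (k + 2) * (k + 2 + 1) = (k + 1) * k + 4 * (k + 2) - 2 := by
    have : (k + 2) * (k + 2 + 1) + 2 = (k + 1) * k + 4 * (k + 2) := by ring
    omega
  rw [hring, eR] at h3
  have e1 : (k + 1) * k ≤ e2 C R' := by omega
  have e2D : e2 C D = 2 * (k + 2) := by omega
  have e3 : ∑ u ∈ D, dg C R u = k + 2 := by omega
  have hone : ∀ u ∈ D, dg C R u = 1 := by
    intro u hu
    by_contra hne
    have h4 : dg C R u < 1 := lt_of_le_of_ne (hS.h1 u hu) hne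
    have h5 : ∑ u ∈ D, dg C R u < ∑ _u ∈ D, 1 :=
      sum_lt_sum (fun u hu => hS.h1 u hu) ⟨u, hu, h4⟩
    rw [sum_const, smul_eq_mul, mul_one, hS.cD] at h5
    omega
  have hfull : ∀ a ∈ R', ∀ b ∈ R', a ≠ b → C.Adj a b := by
    intro a ha b hb hab
    refine adj_of_full (S := R') ?_ ha hb hab
    rw [cR', Nat.add_sub_cancel]
    exact e1
  have hno : ∀ A Y : Finset V, Disjoint A Y → Y ⊆ R' → 3 ≤ Y.card →
      A.card + Y.card = k + 3 → (∀ a ∈ A, 2 ≤ dg C (A ∪ Y) a) → False := by
    intro A Y hAY hY hY3 hcard hA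
    refine hS.noA (A ∪ Y) ?_ ?_
    · rw [card_union_of_disjoint hAY, hcard]
    · intro v hv
      rcases mem_union.1 hv with hv | hv
      · exact hA v hv
      · have h4 := dg_of_full hfull hY (hY hv)
        have h5 := dg_union_right_le (C := C) A Y v
        omega
  -- a vertex of `D` not adjacent to `z` has a neighbour in `R'`
  have hnb : ∀ u ∈ D, ¬ C.Adj u z → ∃ r ∈ R', C.Adj u r := by
    intro u hu hnz
    obtain ⟨r, hr, hur⟩ := one_le_dg_iff.1 (hone u hu).ge
    refine ⟨r, mem_erase.2 ⟨?_, hr⟩, hur⟩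
    rintro rfl
    exact hnz hur
  have hzR' : z ∉ R' := notMem_erase z R
  -- Case 1
  have c1 : ∀ u ∈ D, ∀ u' ∈ D, C.Adj u u' → ¬ C.Adj u z → ¬ C.Adj u' z → False := by
    intro u hu u' hu' huu hz1 hz2
    have hne : u ≠ u' := huu.ne
    refine hno {u, u'} R' ?_ (Subset.refl _) (by omega) ?_ ?_
    · rw [Finset.disjoint_left]
      intro x hx
      rw [mem_insert, mem_singleton] at hx
      rcases hx with rfl | rfl
      · exact hR'D _ hu
      · exact hR'D _ hu'
    · rw [card_pair hne, cR']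
      omega
    · intro a ha
      rw [mem_insert, mem_singleton] at ha
      rcases ha with rfl | rfl
      · obtain ⟨r, hr, har⟩ := hnb _ hu hz1
        exact two_le_dg (mem_union_left _ (mem_insert_of_mem (mem_singleton_self u')))
          (mem_union_right _ hr) (fun h => hR'D _ hu' (h ▸ hr)) huu har
      · obtain ⟨r, hr, har⟩ := hnb _ hu' hz2
        exact two_le_dg (mem_union_left _ (mem_insert_self u _))
          (mem_union_right _ hr) (fun h => hR'D _ hu (h ▸ hr)) huu.symm har
  -- Case 2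
  have c2 : ∀ u ∈ D, ∀ u' ∈ D, C.Adj u u' → C.Adj u z → C.Adj u' z → False := by
    intro u hu u' hu' huu hz1 hz2
    have hne : u ≠ u' := huu.ne
    obtain ⟨Y, hY, hYc⟩ := exists_subset_card_eq (show k ≤ R'.card by omega)
    have huz : u ≠ z := hz1.ne
    have hu'z : u' ≠ z := hz2.ne
    refine hno {u, u', z} Y ?_ hY (by omega) ?_ ?_
    · rw [Finset.disjoint_left]
      intro x hx hxY
      rw [mem_insert, mem_insert, mem_singleton] at hx
      rcases hx with rfl | rfl | rfl
      · exact hR'D _ hu (hY hxY)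
      · exact hR'D _ hu' (hY hxY)
      · exact hzR' (hY hxY)
    · rw [card_eq_three.2 ⟨u, u', z, hne, huz, hu'z, rfl⟩, hYc]
      omega
    · have mu : u ∈ ({u, u', z} : Finset V) ∪ Y := by simp
      have mu' : u' ∈ ({u, u', z} : Finset V) ∪ Y := by simp
      have mz : z ∈ ({u, u', z} : Finset V) ∪ Y := by simp
      intro a ha
      rw [mem_insert, mem_insert, mem_singleton] at ha
      rcases ha with rfl | rfl | rfl
      · exact two_le_dg mu' mz hu'z huu hz1
      · exact two_le_dg mu mz huz huu.symm hz2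
      · exact two_le_dg mu mu' hne hz1.symm hz2.symm
  -- Case 3
  classical
  set Dz : Finset V := D.filter fun u => C.Adj u z with hDz
  set Do : Finset V := D.filter fun u => ¬ C.Adj u z with hDo
  have hdis : Disjoint Dz Do := disjoint_filter_filter_not D D _
  have hun : Dz ∪ Do = D := filter_union_filter_not_eq _ D
  have ez : e2 C Dz = 0 := by
    unfold e2
    refine sum_eq_zero fun u hu => dg_eq_zero_iff.2 fun u' hu' hadj => ?_
    rw [hDz, mem_filter] at hu hu'
    exact c2 u hu.1 u' hu'.1 hadj hu.2 hu'.2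
  have eo : e2 C Do = 0 := by
    unfold e2
    refine sum_eq_zero fun u hu => dg_eq_zero_iff.2 fun u' hu' hadj => ?_
    rw [hDo, mem_filter] at hu hu'
    exact c1 u hu.1 u' hu'.1 hadj hu.2 hu'.2
  have hsD : ∑ u ∈ Do, dg C Dz u = k + 2 := by
    have := e2_union (C := C) hdis
    rw [hun, ez, eo, e2D] at this
    omega
  obtain ⟨u', hu', hdg⟩ : ∃ u' ∈ Do, 2 ≤ dg C Dz u' := by
    by_contra hall
    push Not at hall
    have h4 : ∑ u ∈ Do, dg C Dz u ≤ Do.card := by
      have := sum_le_card_nsmul Do (fun u => dg C Dz u) 1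
        (fun u hu => Nat.le_of_lt_succ (hall u hu))
      rw [smul_eq_mul, mul_one] at this
      exact this
    have h5 : Dz.card + Do.card = k + 2 := by
      rw [← card_union_of_disjoint hdis, hun, hS.cD]
    have h6 : Dz = ∅ := card_eq_zero.1 (by omega)
    rw [h6] at hsD
    simp at hsD
  obtain ⟨u1, hu1, u2, hu2, hne, ha1, ha2⟩ := two_le_dg_iff.1 hdg
  rw [hDz, mem_filter] at hu1 hu2
  rw [hDo, mem_filter] at hu'
  obtain ⟨Y, hY, hYc⟩ := exists_subset_card_eq (show k - 1 ≤ R'.card by omega)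
  have hu1z : u1 ≠ z := hu1.2.ne
  have hu2z : u2 ≠ z := hu2.2.ne
  have hu'z : u' ≠ z := fun h => hzD (h ▸ hu'.1)
  have hu'1 : u' ≠ u1 := ha1.ne
  have hu'2 : u' ≠ u2 := ha2.ne
  refine hno {z, u1, u', u2} Y ?_ hY (by omega) ?_ ?_
  · rw [Finset.disjoint_left]
    intro x hx hxY
    rw [mem_insert, mem_insert, mem_insert, mem_singleton] at hx
    rcases hx with rfl | rfl | rfl | rfl
    · exact hzR' (hY hxY)
    · exact hR'D _ hu1.1 (hY hxY)
    · exact hR'D _ hu'.1 (hY hxY)
    · exact hR'D _ hu2.1 (hY hxY)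
  · have h4 : ({z, u1, u', u2} : Finset V).card = 4 := by
      rw [card_insert_of_notMem, card_eq_three.2 ⟨u1, u', u2, hu'1.symm, hne, hu'2, rfl⟩]
      simp only [mem_insert, mem_singleton, not_or]
      exact ⟨hu1z.symm, hu'z.symm, hu2z.symm⟩
    rw [h4, hYc]
    omega
  · have mz : z ∈ ({z, u1, u', u2} : Finset V) ∪ Y := by simp
    have m1 : u1 ∈ ({z, u1, u', u2} : Finset V) ∪ Y := by simp
    have m' : u' ∈ ({z, u1, u', u2} : Finset V) ∪ Y := by simp
    have m2 : u2 ∈ ({z, u1, u', u2} : Finset V) ∪ Y := by simp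
    intro a ha
    rw [mem_insert, mem_insert, mem_insert, mem_singleton] at ha
    rcases ha with rfl | rfl | rfl | rfl
    · exact two_le_dg m1 m2 hne hu1.2.symm hu2.2.symm
    · exact two_le_dg mz m' hu'z.symm hu1.2 ha1.symm
    · exact two_le_dg m1 m2 hne ha1 ha2
    · exact two_le_dg mz m' hu'z.symm hu2.2 ha2.symm

end Pool.Agent.Lib.MP_270b6b_co.MB
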