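import Pool.Agent.Lib.MP_270b6b_co.MB.Spec

/-!
# Module LG
-/

set_option autoImplicit false

namespace Pool.Agent.Lib.MP_270b6b_co.MB

open Finset

theorem specLG : SpecLG := by
  intro V _ C R
  induction R using Finset.strongInduction with
  | H R ih =>
    intro Z x hZ hZx hxR
    rcases le_or_gt x 2 with hx | hx
    · right
      have : x - 2 = 0 := by omega
      rw [this, mul_zero, mul_zero, add_zero]
      exact e2_le R
    by_cases hall : ∀ v ∈ R, v ∉ Z → R.card - 1 - dg C R v ≤ x - 3
    · left
      obtain ⟨X, hZX, hXR, hXc⟩ := exists_subsuperset_card_eq hZ hZx hxR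
      refine ⟨X, hZX, hXR, hXc, fun v hv hvZ => ?_⟩
      have h1 := hall v (hXR hv) hvZ
      have h2 := miss_mono (C := C) hXR hv
      rw [hXc] at h2
      have h3 := dg_lt_card (C := C) hv
      omega
    · push Not at hall
      obtain ⟨v, hvR, hvZ, hv⟩ := hall
      rcases hxR.eq_or_lt with hxe | hxl
      · right
        have h1 := miss_one (C := C) hvR
        have : R.card + 1 - x = 1 := by omega
        rw [this, one_mul]
        omega
      · have hsub : R.erase v ⊂ R := erase_ssubset hvR
        have hZ' : Z ⊆ R.erase v := by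
          intro z hz
          rw [mem_erase]
          exact ⟨fun h => hvZ (h ▸ hz), hZ hz⟩
        have hc := card_erase_of_mem hvR
        rcases ih (R.erase v) hsub Z x hZ' hZx (by omega) with ⟨X, h1, h2, h3, h4⟩ | h
        · left
          exact ⟨X, h1, h2.trans (erase_subset _ _), h3, h4⟩
        · right
          have h1 := e2_erase (C := C) hvR
          have h2 := dg_lt_card (C := C) hvR
          rw [hc] at h
          obtain ⟨y, rfl⟩ : ∃ y, x = y + 2 := ⟨x - 2, by omega⟩
          obtain ⟨j, hj⟩ : ∃ j, R.card = y + 2 + j + 1 := ⟨R.card - (y + 2) - 1, by omega⟩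
          rw [hj] at h h2 hv ⊢
          have e1 : y + 2 + j + 1 - 1 + 1 - (y + 2) = j + 1 := by omega
          have e2' : y + 2 + j + 1 - 1 = y + 2 + j := by omega
          have e3 : y + 2 + j - 1 = y + 1 + j := by omega
          have e4 : y + 2 - 2 = y := by omega
          have e5 : y + 2 + j + 1 + 1 - (y + 2) = j + 2 := by omega
          rw [e1, e4, e2', e3] at h
          rw [e5, e4, e2']
          have h3 : dg C R v + y ≤ y + 2 + j := by omega
          nlinarith

end Pool.Agent.Lib.MP_270b6b_co.MB
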