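import Pool.Agent.Lib.MP_270b6b_co.MB.Spec

/-!
# MP_270b6b, module LM: few sizes of cores, few edges
-/

set_option autoImplicit false

namespace Pool.Agent.Lib.MP_270b6b_co.MB

open Finset

theorem specLM : SpecLM := by
  classical
  intro V _ C H
  induction H using Finset.strongInduction with
  | H H ih =>
    intro hne
    obtain ⟨v, hv, hmin⟩ := exists_min_image H (dg C H) hne
    have he := e2_erase (C := C) hv
    have hlt := dg_lt_card (C := C) hv
    have hcE := card_erase_of_mem hv
    by_cases h1 : (H.erase v).Nonempty
    · have ih' := ih (H.erase v) (erase_ssubset hv) h1
      have hpos : 1 ≤ (H.erase v).card := card_pos.2 h1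
      have hsub : cs C (H.erase v) ⊆ cs C H := cs_mono (erase_subset v H)
      set a := dg C H v with ha
      set t := (cs C H).card with ht
      set t' := (cs C (H.erase v)).card with ht'
      by_cases ha1 : a ≤ 1
      · have h2 : t' ≤ t := card_le_card hsub
        have h3 : t' * (t' + 1) ≤ t * (t + 1) := Nat.mul_le_mul h2 (by omega)
        omega
      · have hcore : ∀ j, j + 2 ≤ a → H.card - j ∈ cs C H := by
          intro j hj
          obtain ⟨X, hX, hXc⟩ := exists_subset_card_eq (show H.card - j ≤ H.card by omega)
          rw [mem_cs]
          refine ⟨by omega, X, hX, hXc, ?_⟩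
          intro w hw
          have h2 := dg_le_add (C := C) hX w
          have h3 := hmin w (hX hw)
          omega
        have h0 : H.card ∈ cs C H := by
          have := hcore 0 (by omega)
          simpa using this
        have h0' : H.card ∉ cs C (H.erase v) := by
          rw [mem_cs]
          rintro ⟨-, X, hX, hXc, -⟩
          have := card_le_card hX
          omega
        have h2 : t' < t := card_lt_card ⟨hsub, fun h => h0' (h h0)⟩
        have h3 : a - 1 ≤ t := by
          have h4 : (range (a - 1)).image (fun j => H.card - j) ⊆ cs C H := by
            intro i hi
            rw [mem_image] at hi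
            obtain ⟨j, hj, rfl⟩ := hi
            rw [mem_range] at hj
            exact hcore j (by omega)
          have h5 := card_le_card h4
          rw [card_image_of_injOn, card_range] at h5
          · exact h5
          · intro i hi j hj hij
            simp only [coe_range, Set.mem_Iio] at hi hj
            have hij' : H.card - i = H.card - j := hij
            omega
        obtain ⟨r, hr⟩ : ∃ r, t = r + 1 := ⟨t - 1, by omega⟩
        have h6 : t' * (t' + 1) ≤ r * (r + 1) := Nat.mul_le_mul (by omega) (by omega)
        have h7 : t * (t + 1) = r * (r + 1) + 2 * (r + 1) := by
          rw [hr]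
          ring
        omega
    · rw [not_nonempty_iff_eq_empty] at h1
      rw [h1] at he hcE
      rw [card_empty] at hcE
      rw [e2_empty] at he
      have h2 : 1 ≤ H.card := card_pos.2 hne
      omega

end Pool.Agent.Lib.MP_270b6b_co.MB
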