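import Pool.Agent.Lib.MP_270b6b_co.MB.Spec

/-!
# MP_270b6b, `m = 2 n + 2`: module MAKE
-/

set_option autoImplicit false

namespace Pool.Agent.Lib.MP_270b6b_co.MB

open Finset

theorem specMAKE (hTB : SpecTB) (hTRI : SpecTRI) (hCOR : SpecCOR) (hEP : SpecEP) (hED : SpecED)
    (hISR : SpecISR) : SpecMAKE := by
  intro V _ C w R D hs
  have hw := hs.hw
  have hT := hTB V C w R D hs
  have hcore : ∀ X ⊆ D, X.Nonempty → Core C X → w ≤ X.card + 1 := by
    intro X hX hne hXc
    by_contra hcon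
    have h3 := hXc.three_le_card hne
    obtain ⟨Y, hY, hYc, hYC⟩ : ∃ Y ⊆ R, Y.card = w + 1 - X.card ∧ Core C Y := by
      rcases Nat.lt_or_ge 3 (w + 1 - X.card) with h | h
      · exact hCOR V C w R D hs hT _ (by omega) (by omega)
      · have h4 : w + 1 - X.card = 3 := by omega
        rw [h4]
        exact hTRI V C w R D hs hT
    have hdis : Disjoint Y X := disjoint_of_subset_left hY (disjoint_of_subset_right hX hs.dis)
    refine hs.noA (Y ∪ X) ?_ (hYC.union hXc)
    rw [card_union_of_disjoint hdis, hYc]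
    omega
  have hE := hED V C w D hw hs.cD hcore
  have hI := hISR V C w R D hs hE
  by_cases h : ∀ v ∈ D, 1 ≤ dg C D v
  · exact Or.inl ⟨R, D, rfl, hs.dis, hs.cR, hs.cD, hI, h⟩
  · right
    push Not at h
    obtain ⟨z0, hz0, hz⟩ := h
    have hz' : dg C D z0 = 0 := by omega
    have hc : (D.erase z0).card + 1 = w := by rw [card_erase_add_one hz0, hs.cD]
    have hcs : ∀ X ⊆ D.erase z0, X.Nonempty → Core C X → X = D.erase z0 := by
      intro X hX hne hXc
      have h1 := hcore X (hX.trans (erase_subset _ _)) hne hXc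
      exact eq_of_subset_of_card_le hX (by omega)
    have hne : (D.erase z0).Nonempty := by
      rw [← card_pos]
      omega
    obtain ⟨hE1, hE2⟩ := hEP V C (D.erase z0) hne hcs
    have he := e2_erase (C := C) hz0
    have hsum : ∑ u ∈ D.erase z0, dg C R u + dg C R z0 = ∑ u ∈ D, dg C R u := sum_erase_add _ _ hz0
    have h3 := hs.h3
    have h4 : e2 C (D.erase z0) + 2 ≤ 2 * w := by omega
    have h5 : 2 * w ≤ e2 C (D.erase z0) + 3 → Core C (D.erase z0) := fun h => hE2 (by omega)
    have h6 : e2 C R + e2 C (D.erase z0) + 2 * (∑ u ∈ D.erase z0, dg C R u) + 2 * dg C R z0 =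
        w * (w + 1) + 2 := by
      rw [← h3, ← hsum, he, hz']
      ring
    exact ⟨z0, D.erase z0, ⟨hs, hz0, rfl, hc, hcs, h4, h5, h6⟩⟩

end Pool.Agent.Lib.MP_270b6b_co.MB
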