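import Pool.Agent.Lib.MP_270b6b_co.MB.Spec

/-!
# MP_270b6b, module MGA: a minimal good set exists and has few edges
-/

set_option autoImplicit false

namespace Pool.Agent.Lib.MP_270b6b_co.MB

open Finset

namespace MGAM

variable {V : Type} [DecidableEq V] {C : SimpleGraph V}

/-- If there is no good subset then the conclusion of NG holds. -/
theorem ng_of_not_good (hNG : SpecNG) {R S D' : Finset V} (hSD : S ⊆ D')
    (h : ∀ U : Finset V, U ⊆ S → ¬ GoodU C R D' U) :
    e2 C S + 2 * ∑ u ∈ S, dg C R u ≤ 2 * S.card := by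
  apply hNG V C R S
  intro U hU hne
  by_contra hcon
  push Not at hcon
  exact h U hU ⟨hne, hU.trans hSD, fun u hu => hcon u hu⟩

theorem exists_good (hNG : SpecNG) {w : ℕ} {R D : Finset V} {z0 : V} {D' : Finset V}
    (h : Sit2 C w R D z0 D') : ∃ U : Finset V, GoodU C R D' U := by
  by_contra hcon
  push Not at hcon
  have h1 := ng_of_not_good hNG (subset_refl D') (fun U _ => hcon U)
  have h2 := e2_le (C := C) R
  rw [h.sit.cR] at h2
  have h3 := h.sit.h1 z0 h.hz0
  have h4 := h.cnt
  have h5 := h.cD'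
  have h6 := h.sit.hw
  obtain ⟨k, rfl⟩ : ∃ k, w = k + 1 := ⟨w - 1, by omega⟩
  simp only [Nat.add_sub_cancel] at h2
  nlinarith

theorem main (hNG : SpecNG) {w : ℕ} {R D : Finset V} {z0 : V} {D' : Finset V}
    (h : Sit2 C w R D z0 D') :
    ∃ U : Finset V, GoodU C R D' U ∧ (∀ U' : Finset V, GoodU C R D' U' → U.card ≤ U'.card) ∧
      e2 C U + 2 * ∑ u ∈ U, dg C R u ≤ 2 * U.card + 2 := by
  classical
  obtain ⟨U0, hU0⟩ := exists_good hNG h
  obtain ⟨U, hU, hmin⟩ := exists_min_image (D'.powerset.filter (fun U => GoodU C R D' U))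
    (fun U => U.card) ⟨U0, mem_filter.2 ⟨mem_powerset.2 hU0.sub, hU0⟩⟩
  rw [mem_filter] at hU
  have hgood := hU.2
  have hmin' : ∀ U' : Finset V, GoodU C R D' U' → U.card ≤ U'.card := fun U' hU' =>
    hmin U' (mem_filter.2 ⟨mem_powerset.2 hU'.sub, hU'⟩)
  refine ⟨U, hgood, hmin', ?_⟩
  -- `dg R u ≤ 1` for the elements of `D'`
  have hR : ∀ u ∈ D', dg C R u ≤ 1 := by
    intro u hu
    rw [h.hD'] at hu
    exact h.sit.h1 u (mem_of_mem_erase hu)
  -- some `u ∈ U` is tight
  have htight : ∃ u ∈ U, dg C U u + dg C R u = 2 := by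
    by_contra hcon
    push Not at hcon
    obtain ⟨u, hu⟩ := hgood.ne
    have hne : (U.erase u).Nonempty := by
      rw [nonempty_iff_ne_empty]
      intro hem
      have h1 : dg C U u = 0 := by
        rw [← dg_erase_self, hem, dg_empty]
      have h2 := hgood.deg u hu
      have h3 := hR u (hgood.sub hu)
      omega
    have hg : GoodU C R D' (U.erase u) := by
      refine ⟨hne, (erase_subset u U).trans hgood.sub, ?_⟩
      intro v hv
      have hvU := mem_of_mem_erase hv
      have h1 := hgood.deg v hvU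
      have h2 := hcon v hvU
      have h3 := dg_le_erase (C := C) U u v
      omega
    have h1 := hmin' _ hg
    rw [card_erase_of_mem hu] at h1
    have h2 : 0 < U.card := card_pos.2 ⟨u, hu⟩
    omega
  obtain ⟨u, hu, hu2⟩ := htight
  have hcard : 0 < U.card := card_pos.2 ⟨u, hu⟩
  have h1 : e2 C (U.erase u) + 2 * ∑ v ∈ U.erase u, dg C R v ≤ 2 * (U.erase u).card := by
    apply ng_of_not_good hNG ((erase_subset u U).trans hgood.sub)
    intro U' hU' hg
    have h2 := hmin' U' hg
    have h3 := card_le_card hU'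
    rw [card_erase_of_mem hu] at h3
    omega
  rw [card_erase_of_mem hu] at h1
  have h2 := e2_erase (C := C) hu
  have h3 : ∑ v ∈ U.erase u, dg C R v + dg C R u = ∑ v ∈ U, dg C R v := sum_erase_add _ _ hu
  omega

end MGAM

theorem specMGA (hNG : SpecNG) : SpecMGA := by
  intro V _ C w R D z0 D' h
  exact MGAM.main hNG h

end Pool.Agent.Lib.MP_270b6b_co.MB
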