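import Pool.Agent.Lib.MP_270b6b_co.MB.Spec

/-!
# MGB: the two possible shapes of a minimal good set
-/

set_option autoImplicit false

namespace Pool.Agent.Lib.MP_270b6b_co.MB

open Finset

theorem specMGB (hEP : SpecEP) : SpecMGB := by
  intro V _ C w R D z0 D' U h2 hU hle
  have hw := h2.sit.hw
  obtain ⟨k, rfl⟩ : ∃ k, w = k + 1 := ⟨w - 1, by omega⟩
  have hk : k + 1 - 1 = k := by omega
  have hring : (k + 1) * (k + 1 + 1) = (k + 1) * k + 2 * (k + 1) := by ring
  have hR : e2 C R ≤ (k + 1) * k := by
    have := e2_le (C := C) R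
    rwa [h2.sit.cR, hk] at this
  have hz : dg C R z0 ≤ 1 := h2.sit.h1 z0 h2.hz0
  have hcnt := h2.cnt
  have heD := h2.eD'
  have hUD : ∀ u ∈ U, u ∈ D := by
    intro u hu
    have := hU.sub hu
    rw [h2.hD'] at this
    exact mem_of_mem_erase this
  have hle1 : ∀ u ∈ U, dg C R u ≤ 1 := fun u hu => h2.sit.h1 u (hUD u hu)
  have hsum : 2 * U.card ≤ e2 C U + ∑ u ∈ U, dg C R u := by
    unfold e2
    rw [← sum_add_distrib]
    have := card_nsmul_le_sum U (fun u => dg C U u + dg C R u) 2 (fun u hu => hU.deg u hu)
    rw [smul_eq_mul] at this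
    omega
  have ha : ∑ u ∈ U, dg C R u ≤ 2 := by omega
  rw [hring] at hcnt
  rw [hk]
  -- the number of vertices with a neighbour
  have hcard : (U.filter fun u => dg C R u = 1).card = ∑ u ∈ U, dg C R u := by
    rw [card_filter]
    refine sum_congr rfl fun u hu => ?_
    have := hle1 u hu
    split_ifs with h
    · exact h.symm
    · omega
  rcases Nat.lt_or_ge (∑ u ∈ U, dg C R u) 1 with h0 | h0
  · -- a = 0
    exfalso
    have h0' : ∑ u ∈ U, dg C R u = 0 := by omega
    have hz0 : ∀ u ∈ U, dg C R u = 0 := fun u hu => (sum_eq_zero_iff.1 h0') u hu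
    have hcore : Core C U := by
      intro u hu
      have h1 := hU.deg u hu
      rw [hz0 u hu] at h1
      exact h1
    have hUD' : U = D' := h2.cores U hU.sub hU.ne hcore
    rw [← hUD', h0'] at hcnt
    rw [← hUD'] at heD
    omega
  · rcases Nat.lt_or_ge (∑ u ∈ U, dg C R u) 2 with h1 | h1
    · -- a = 1
      left
      have h1' : ∑ u ∈ U, dg C R u = 1 := by omega
      have hex : ∃ X ⊆ U, X.Nonempty ∧ Core C X := by
        by_contra hcon
        push Not at hcon
        exact hcon U (Subset.refl U) hU.ne ((hEP V C U hU.ne fun X hX hne hc =>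
          absurd hc (hcon X hX hne)).2 (by omega))
      obtain ⟨X, hXU, hXne, hXc⟩ := hex
      have hXD : X = D' := h2.cores X (hXU.trans hU.sub) hXne hXc
      have hUD' : U = D' := Subset.antisymm hU.sub (hXD ▸ hXU)
      have hcD : Core C D' := hXD ▸ hXc
      rw [← hUD', h1'] at hcnt
      rw [← hUD'] at heD
      obtain ⟨u1, hu1⟩ : (U.filter fun u => dg C R u = 1).Nonempty := by
        rw [← card_pos, hcard]
        omega
      rw [mem_filter] at hu1
      exact ⟨hUD', hcD, by omega, by omega, u1, hUD' ▸ hu1.1, hu1.2⟩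
    · -- a = 2
      right
      have h2' : ∑ u ∈ U, dg C R u = 2 := by omega
      have heU : e2 C U + 2 = 2 * U.card := by omega
      have heq : ∀ u ∈ U, dg C U u + dg C R u = 2 := by
        intro u hu
        by_contra hne
        have h3 : 2 < dg C U u + dg C R u := lt_of_le_of_ne (hU.deg u hu) (Ne.symm hne)
        have h4 : ∑ _u ∈ U, 2 < ∑ u ∈ U, (dg C U u + dg C R u) :=
          sum_lt_sum (fun u hu => hU.deg u hu) ⟨u, hu, h3⟩
        rw [sum_const, smul_eq_mul, sum_add_distrib, h2'] at h4
        unfold e2 at heU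
        omega
      rw [h2', card_eq_two] at hcard
      obtain ⟨u1, u2, hne, hset⟩ := hcard
      have m1 : u1 ∈ U.filter fun u => dg C R u = 1 := by
        rw [hset]
        exact mem_insert_self _ _
      have m2 : u2 ∈ U.filter fun u => dg C R u = 1 := by
        rw [hset]
        exact mem_insert_of_mem (mem_singleton_self _)
      rw [mem_filter] at m1 m2
      have e1 := heq u1 m1.1
      have e2' := heq u2 m2.1
      refine ⟨heU, h2', u1, m1.1, u2, m2.1, hne, m1.2, m2.2, by omega, by omega, ?_⟩
      intro u hu hu1 hu2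
      have h5 : dg C R u ≠ 1 := by
        intro h
        have : u ∈ U.filter fun u => dg C R u = 1 := mem_filter.2 ⟨hu, h⟩
        rw [hset, mem_insert, mem_singleton] at this
        rcases this with h | h
        · exact hu1 h
        · exact hu2 h
      have h6 := hle1 u hu
      have h7 := heq u hu
      constructor <;> omega

end Pool.Agent.Lib.MP_270b6b_co.MB
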