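import Pool.Agent.Lib.MP_270b6b_co.MB.Spec

/-!
# MP_270b6b, MB, module TB: `e(D) ≤ w + 5`
-/

set_option autoImplicit false

namespace Pool.Agent.Lib.MP_270b6b_co.MB

open Finset

theorem specTB (hLM : SpecLM) : SpecTB := by
  intro V _ C w R D h
  have hw := h.hw
  have hRne : R.Nonempty := card_pos.1 (by rw [h.cR]; omega)
  have hDne : D.Nonempty := card_pos.1 (by rw [h.cD]; omega)
  have hR := hLM V C R hRne
  have hD := hLM V C D hDne
  rw [h.cR] at hR
  rw [h.cD] at hD
  have hsum : (cs C R).card + (cs C D).card ≤ w := by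
    have himg : ((cs C D).image fun i => w + 1 - i).card = (cs C D).card := by
      apply card_image_of_injOn
      intro i hi j hj hij
      have hi' := mem_cs.1 hi
      have hj' := mem_cs.1 hj
      obtain ⟨_, X, hX, hXc, _⟩ := hi'
      obtain ⟨_, Y, hY, hYc, _⟩ := hj'
      have h1 := card_le_card hX
      have h2 := card_le_card hY
      rw [h.cD] at h1 h2
      simp only at hij
      omega
    have hdis : Disjoint (cs C R) ((cs C D).image fun i => w + 1 - i) := by
      rw [disjoint_left]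
      intro j hj hj'
      rw [mem_image] at hj'
      obtain ⟨i, hi, hij⟩ := hj'
      obtain ⟨_, X, hX, hXc, hXcore⟩ := mem_cs.1 hj
      obtain ⟨_, Y, hY, hYc, hYcore⟩ := mem_cs.1 hi
      have h2 := card_le_card hY
      rw [h.cD] at h2
      apply h.noA (X ∪ Y) _ (hXcore.union hYcore)
      rw [card_union_of_disjoint (disjoint_of_subset_left hX (disjoint_of_subset_right hY h.dis))]
      omega
    rw [← himg, ← card_union_of_disjoint hdis]
    have hsub : cs C R ∪ ((cs C D).image fun i => w + 1 - i) ⊆ Icc 1 w := by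
      intro j hj
      rw [mem_union] at hj
      rw [mem_Icc]
      rcases hj with hj | hj
      · obtain ⟨h1, X, hX, hXc, _⟩ := mem_cs.1 hj
        have h2 := card_le_card hX
        rw [h.cR] at h2
        omega
      · rw [mem_image] at hj
        obtain ⟨i, hi, hij⟩ := hj
        obtain ⟨h1, Y, hY, hYc, _⟩ := mem_cs.1 hi
        have h2 := card_le_card hY
        rw [h.cD] at h2
        omega
    have := card_le_card hsub
    rw [Nat.card_Icc] at this
    omega
  have hS : ∑ u ∈ D, dg C R u ≤ w := by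
    calc ∑ u ∈ D, dg C R u ≤ ∑ u ∈ D, 1 := sum_le_sum h.h1
      _ = w := by rw [sum_const, h.cD, smul_eq_mul, mul_one]
  have h3 := h.h3
  have h2 := h.h2
  obtain ⟨t, ht⟩ : ∃ t, (cs C D).card = t := ⟨_, rfl⟩
  obtain ⟨s, hs⟩ : ∃ s, (cs C R).card = s := ⟨_, rfl⟩
  rw [ht, hs] at hsum
  rw [hs] at hR
  rw [ht] at hD
  obtain ⟨sg, hsg⟩ : ∃ x, ∑ u ∈ D, dg C R u = x := ⟨_, rfl⟩
  rw [hsg] at hS h3
  rcases le_or_gt t 3 with ht3 | ht3
  · have : t * (t + 1) ≤ 3 * 4 := Nat.mul_le_mul ht3 (by omega)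
    omega
  · exfalso
    rcases le_or_gt t (w - 4) with ht4 | ht4
    · have hs' : s ≤ w - t := by omega
      have hss : s * (s + 1) ≤ (w - t) * (w - t + 1) := Nat.mul_le_mul hs' (by omega)
      obtain ⟨k, hk⟩ : ∃ k, w = t + 4 + k := ⟨w - t - 4, by omega⟩
      have hwt : w - t = 4 + k := by omega
      rw [hwt] at hss
      obtain ⟨j, hj⟩ : ∃ j, t = 4 + j := ⟨t - 4, by omega⟩
      subst hj
      subst hk
      nlinarith
    · have hs3 : s ≤ 3 := by omega
      have : s * (s + 1) ≤ 3 * 4 := Nat.mul_le_mul hs3 (by omega)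
      nlinarith

end Pool.Agent.Lib.MP_270b6b_co.MB
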