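import Pool.Agent.Lib.MP_270b6b_co.MB.Spec

/-!
# Module TRI: `R` contains a triangle
-/

set_option autoImplicit false

namespace Pool.Agent.Lib.MP_270b6b_co.MB

open Finset

namespace TRIM

variable {V : Type} {C : SimpleGraph V} {R N : Finset V} {v a b : V}

/-- three pairwise adjacent vertices form a core -/
theorem core_of_triangle [DecidableEq V] (hv : v ∈ R) (ha : a ∈ R) (hb : b ∈ R) (hva : C.Adj v a)
    (hvb : C.Adj v b) (hab : C.Adj a b) : ∃ X ⊆ R, X.card = 3 ∧ Core C X := by
  refine ⟨{v, a, b}, ?_, ?_, ?_⟩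
  · intro x hx
    rw [mem_insert, mem_insert, mem_singleton] at hx
    rcases hx with rfl | rfl | rfl
    · exact hv
    · exact ha
    · exact hb
  · exact card_eq_three.2 ⟨v, a, b, hva.ne, hvb.ne, hab.ne, rfl⟩
  · intro x hx
    have m1 : v ∈ ({v, a, b} : Finset V) := by simp
    have m2 : a ∈ ({v, a, b} : Finset V) := by simp
    have m3 : b ∈ ({v, a, b} : Finset V) := by simp
    rw [mem_insert, mem_insert, mem_singleton] at hx
    rcases hx with rfl | rfl | rfl
    · exact two_le_dg m2 m3 hab.ne hva hvb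
    · exact two_le_dg m1 m3 hvb.ne hva.symm hab
    · exact two_le_dg m1 m2 hva.ne hvb.symm hab.symm

/-- a set without edges inside `R` leaves few edges -/
theorem e2_le_of_independent [DecidableEq V] (hN : N ⊆ R) (h : ∀ a ∈ N, ∀ b ∈ N, ¬ C.Adj a b) :
    e2 C R ≤ 2 * ((R \ N).card * (R.card - 1)) := by
  have h1 : e2 C N = 0 := by
    unfold e2
    apply sum_eq_zero
    intro a ha
    rw [dg_eq_zero_iff]
    intro b hb
    exact h a ha b hb
  have h2 := e2_union (C := C) (S := N) (T := R \ N) disjoint_sdiff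
  rw [union_sdiff_of_subset hN, h1] at h2
  have h3 : e2 C (R \ N) + ∑ u ∈ R \ N, dg C N u = ∑ u ∈ R \ N, dg C R u := by
    unfold e2
    rw [← sum_add_distrib]
    refine sum_congr rfl fun u _ => ?_
    have h4 := dg_union (C := C) (S := N) (T := R \ N) disjoint_sdiff u
    rw [union_sdiff_of_subset hN] at h4
    omega
  have h5 : ∑ u ∈ R \ N, dg C R u ≤ (R \ N).card * (R.card - 1) := by
    rw [← smul_eq_mul]
    apply sum_le_card_nsmul
    intro u hu
    have := dg_lt_card (C := C) (mem_sdiff.1 hu).1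
    omega
  omega

end TRIM

theorem specTRI : SpecTRI := by
  classical
  intro V _ C w R D hS hD
  have hw := hS.hw
  have hR := hS.cR
  have h3 := hS.h3
  have hsum : ∑ u ∈ D, dg C R u ≤ w := by
    calc ∑ u ∈ D, dg C R u ≤ ∑ u ∈ D, 1 := sum_le_sum hS.h1
      _ = w := by rw [sum_const, smul_eq_mul, mul_one, hS.cD]
  have hmain : w * w ≤ e2 C R + 3 * w + 8 := by
    have h4 : w * (w + 1) = w * w + w := by ring
    omega
  -- a vertex of large degree
  obtain ⟨v, hv, hdv⟩ : ∃ v ∈ R, w ≤ dg C R v + 3 := by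
    by_contra hcon
    push Not at hcon
    have h5 : e2 C R ≤ R.card * (w - 4) := by
      unfold e2
      rw [← smul_eq_mul]
      apply sum_le_card_nsmul
      intro u hu
      have := hcon u hu
      omega
    rw [hR] at h5
    obtain ⟨k, rfl⟩ : ∃ k, w = k + 4 := ⟨w - 4, by omega⟩
    rw [Nat.add_sub_cancel] at h5
    nlinarith
  by_cases hcase : ∃ a ∈ R.filter (fun u => C.Adj v u), ∃ b ∈ R.filter (fun u => C.Adj v u),
      C.Adj a b
  · obtain ⟨a, ha, b, hb, hab⟩ := hcase
    rw [mem_filter] at ha hb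
    exact TRIM.core_of_triangle hv ha.1 hb.1 ha.2 hb.2 hab
  · exfalso
    push Not at hcase
    have h6 := TRIM.e2_le_of_independent (C := C) (filter_subset (fun u => C.Adj v u) R) hcase
    have h7 : (R \ R.filter (fun u => C.Adj v u)).card ≤ 3 := by
      rw [card_sdiff_of_subset (filter_subset _ _)]
      have h8 : (R.filter (fun u => C.Adj v u)).card = dg C R v := by
        unfold dg
        congr
      omega
    rw [hR] at h6
    have h9 : (R \ R.filter (fun u => C.Adj v u)).card * (w - 1) ≤ 3 * (w - 1) :=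
      Nat.mul_le_mul_right _ h7
    have h10 : w * w ≤ 9 * w + 2 := by omega
    nlinarith

end Pool.Agent.Lib.MP_270b6b_co.MB
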