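import Pool.Agent.Lib.MP_270b6b_co.MB.LM
import Pool.Agent.Lib.MP_270b6b_co.MB.LG
import Pool.Agent.Lib.MP_270b6b_co.MB.EXT
import Pool.Agent.Lib.MP_270b6b_co.MB.TB
import Pool.Agent.Lib.MP_270b6b_co.MB.TRI
import Pool.Agent.Lib.MP_270b6b_co.MB.COR
import Pool.Agent.Lib.MP_270b6b_co.MB.EP
import Pool.Agent.Lib.MP_270b6b_co.MB.ED
import Pool.Agent.Lib.MP_270b6b_co.MB.ISR
import Pool.Agent.Lib.MP_270b6b_co.MB.NG
import Pool.Agent.Lib.MP_270b6b_co.MB.MGA
import Pool.Agent.Lib.MP_270b6b_co.MB.MGB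
import Pool.Agent.Lib.MP_270b6b_co.MB.BND
import Pool.Agent.Lib.MP_270b6b_co.MB.TWO
import Pool.Agent.Lib.MP_270b6b_co.MB.THR
import Pool.Agent.Lib.MP_270b6b_co.MB.FOU
import Pool.Agent.Lib.MP_270b6b_co.MB.FB
import Pool.Agent.Lib.MP_270b6b_co.MB.MAKE
import Pool.Agent.Lib.MP_270b6b_co.MB.FIN
import Pool.Agent.Lib.MP_270b6b_co.MB.CPL
import Pool.Agent.Lib.MP_270b6b_co.MB.GRA

/-!
# MP_270b6b: on `2 n + 2` vertices the assertion holds for every `n ≥ 13`
-/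

set_option autoImplicit false

namespace Pool.Agent.Lib.MP_270b6b_co.MB

theorem twoNPlusTwo : SpecGRA := by
  have hEP : SpecEP := specEP specLM
  have hMAKE : SpecMAKE := specMAKE (specTB specLM) specTRI (specCOR specLG) hEP (specED specLM hEP) specISR
  have hFIN : SpecFIN :=
    specFIN (specMGA specNG) (specMGB hEP) specBND specTWO (specTHR specLG) specFOU specFB
  exact specGRA (specCPL specEXT hMAKE hFIN)

end Pool.Agent.Lib.MP_270b6b_co.MB
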